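import Mathlib

/-! Topological wrapper for a map which preserves a family of closed pieces and nested neighbourhoods. -/

open Set Filter Topology

namespace Pool.Agent.Helper15.Jac

/-- Openness at a point from openness relative to finitely many pieces. -/
theorem nhds_le_map_of_pieces {X Y ι : Type*} [TopologicalSpace X] [TopologicalSpace Y] [Finite ι]
    (F : X → Y) (x : X) (P : ι → Set X) (P' : ι → Set Y)
    (hcov : (⋃ i, P' i) ∈ 𝓝 (F x))
    (hopen : ∀ i, 𝓝[P' i] (F x) ≤ map F (𝓝[P i] x)) :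
    𝓝 (F x) ≤ map F (𝓝 x) := by
  have h1 : 𝓝 (F x) = 𝓝[⋃ i, P' i] (F x) := by
    rw [nhdsWithin_eq_nhds.2 hcov]
  rw [h1, nhdsWithin_iUnion]
  refine iSup_le fun i => (hopen i).trans ?_
  exact Filter.map_mono nhdsWithin_le_nhds

/-- The image of an open set is open if `F` is open at each of its points. -/
theorem isOpen_image_of_nhds_le {X Y : Type*} [TopologicalSpace X] [TopologicalSpace Y]
    (F : X → Y) (Ω : Set X) (h : ∀ x ∈ Ω, 𝓝 (F x) ≤ map F (𝓝 x))
    (U : Set X) (hU : IsOpen U) (hUO : U ⊆ Ω) : IsOpen (F '' U) := by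
  rw [isOpen_iff_mem_nhds]
  rintro _ ⟨x, hx, rfl⟩
  exact h x (hUO hx) (image_mem_map (hU.mem_nhds hx))

/-- At a point with a basis of neighbourhoods `Q` with `Q ⊆ F '' Q`, the map is open. -/
theorem nhds_le_map_of_invariant {X : Type*} [TopologicalSpace X]
    (F : X → X) (x : X) (hFx : F x = x)
    (hQ : ∀ U ∈ 𝓝 x, ∃ Q ∈ 𝓝 x, Q ⊆ U ∧ Q ⊆ F '' Q) :
    𝓝 (F x) ≤ map F (𝓝 x) := by
  intro S hS
  rw [mem_map] at hS
  obtain ⟨Q, hQx, hQU, hQF⟩ := hQ _ hS
  rw [hFx]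
  refine mem_of_superset hQx (hQF.trans ?_)
  rintro _ ⟨y, hy, rfl⟩
  exact hQU hy

/-- Discreteness at a fixed point whose full preimage is itself. -/
theorem discrete_of_fixed {X : Type*} [TopologicalSpace X] [T1Space X]
    (F : X → X) (Ω : Set X) (hΩ : IsOpen Ω) (x : X) (hx : x ∈ Ω)
    (hcont : ContinuousAt F x) (hF : ∀ z ∈ Ω, F z = F x → z = x) (y : X) :
    ∀ᶠ z in 𝓝[≠] x, F z ≠ y := by
  by_cases hy : y = F x
  · subst hy
    have h1 : ∀ᶠ z in 𝓝[≠] x, z ∈ Ω := nhdsWithin_le_nhds (hΩ.mem_nhds hx)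
    filter_upwards [h1, self_mem_nhdsWithin] with z hz hzx hEq
    exact hzx (hF z hz hEq)
  · have h1 : ∀ᶠ z in 𝓝 x, F z ≠ y :=
      hcont.eventually_ne (fun h => hy h.symm)
    exact nhdsWithin_le_nhds h1

end Pool.Agent.Helper15.Jac
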