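import Mathlib
import Pool.Agent.Helper15.Jac.Topo

/-! Limit of maps which are changed only inside nested families of small completely invariant sets. -/

open Set Filter Topology

namespace Pool.Agent.Helper15.Jac

/-- The tower: `F n` is the `n`-th map, `Q n i` (`i : ι n`) the level `n` boxes. -/
structure Tower (X : Type*) [MetricSpace X] where
  F : ℕ → X → X
  ι : ℕ → Type
  Q : (n : ℕ) → ι n → Set X
  cont : ∀ n, Continuous (F n)
  openAt : ∀ n x, 𝓝 (F n x) ≤ map (F n) (𝓝 x)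
  disc : ∀ n x y, ∀ᶠ z in 𝓝[≠] x, F n z ≠ y
  closedU : ∀ n, IsClosed (⋃ i, Q n i)
  disj : ∀ n i j, i ≠ j → Disjoint (Q n i) (Q n j)
  anti : ∀ n i, ∃ j, Q (n + 1) i ⊆ interior (Q n j)
  agree : ∀ n x, x ∉ (⋃ i, Q n i) → F (n + 1) x = F n x
  surj' : ∀ n i, Q n i ⊆ F (n + 1) '' Q n i
  inv : ∀ n i x, F n x ∈ Q n i ↔ x ∈ Q n i
  inv' : ∀ n i x, F (n + 1) x ∈ Q n i ↔ x ∈ Q n i
  small : ∀ ε > (0 : ℝ), ∃ n, ∀ i, ∀ x ∈ Q n i, ∀ y ∈ Q n i, dist x y ≤ ε

namespace Tower

variable {X : Type*} [MetricSpace X] (T : Tower X)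

/-- Union of the level `n` boxes. -/
def U (n : ℕ) : Set X := ⋃ i, T.Q n i

/-- The residual set. -/
def K : Set X := ⋂ n, T.U n

theorem U_anti : Antitone T.U := by
  refine antitone_nat_of_succ_le fun n => ?_
  intro x hx
  obtain ⟨i, hi⟩ := mem_iUnion.1 hx
  obtain ⟨j, hj⟩ := T.anti n i
  exact mem_iUnion.2 ⟨j, interior_subset (hj hi)⟩

theorem U_succ_subset_interior (n : ℕ) {x : X} (hx : x ∈ T.U (n + 1)) :
    ∃ j, x ∈ interior (T.Q n j) := by
  obtain ⟨i, hi⟩ := mem_iUnion.1 hx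
  obtain ⟨j, hj⟩ := T.anti n i
  exact ⟨j, hj hi⟩

theorem isClosed_K : IsClosed T.K := isClosed_iInter fun n => T.closedU n

theorem box_subset {n m : ℕ} (hnm : n ≤ m) : ∀ i, ∃ j, T.Q m i ⊆ T.Q n j := by
  induction m, hnm using Nat.le_induction with
  | base => exact fun i => ⟨i, Subset.rfl⟩
  | succ m hm ih =>
    intro i
    obtain ⟨j, hj⟩ := T.anti m i
    obtain ⟨k, hk⟩ := ih j
    exact ⟨k, (hj.trans interior_subset).trans hk⟩

theorem mem_unique {n : ℕ} {i j : T.ι n} {x : X} (hi : x ∈ T.Q n i) (hj : x ∈ T.Q n j) :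
    i = j := by
  by_contra h
  exact Set.disjoint_left.1 (T.disj n i j h) hi hj

theorem stable {n m : ℕ} (hnm : n ≤ m) {x : X} (hx : x ∉ T.U n) : T.F m x = T.F n x := by
  induction m, hnm using Nat.le_induction with
  | base => rfl
  | succ m hm ih =>
    rw [T.agree m x (fun h => hx (T.U_anti hm h)), ih]

theorem exists_not_mem {x : X} (hx : x ∉ T.K) : ∃ n, x ∉ T.U n := by
  simpa [K] using hx

open Classical in
/-- The limit map. -/
noncomputable def G (x : X) : X :=
  if h : ∃ n, x ∉ T.U n then T.F (Nat.find h) x else x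

theorem G_eq {n : ℕ} {x : X} (hx : x ∉ T.U n) : T.G x = T.F n x := by
  classical
  have h : ∃ n, x ∉ T.U n := ⟨n, hx⟩
  have h1 : T.G x = T.F (Nat.find h) x := by simp only [G, h, dif_pos]
  rw [h1]
  exact (T.stable (Nat.find_min' h hx) (Nat.find_spec h)).symm

theorem G_K {x : X} (hx : x ∈ T.K) : T.G x = x := by
  have h : ¬ ∃ n, x ∉ T.U n := by
    push Not
    exact fun n => mem_iInter.1 hx n
  simp only [G, h, dif_neg, not_false_eq_true]

/-- level `m` maps preserve level `n` boxes completely, `n ≤ m`. -/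
theorem inv_le {n m : ℕ} (hnm : n ≤ m) : ∀ i x, T.F m x ∈ T.Q n i ↔ x ∈ T.Q n i := by
  induction m, hnm using Nat.le_induction with
  | base => exact T.inv n
  | succ m hm ih =>
    intro i x
    by_cases hx : x ∈ T.U m
    · obtain ⟨j, hj⟩ := mem_iUnion.1 hx
      have h1 : T.F (m + 1) x ∈ T.Q m j := (T.inv' m j x).2 hj
      obtain ⟨k, hk⟩ := T.box_subset hm j
      constructor
      · intro h
        rw [T.mem_unique h (hk h1)]
        exact hk hj
      · intro h
        rw [T.mem_unique h (hk hj)]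
        exact hk h1
    · rw [T.agree m x hx]
      exact ih i x

theorem G_mem_box (n : ℕ) (i : T.ι n) (x : X) : T.G x ∈ T.Q n i ↔ x ∈ T.Q n i := by
  by_cases hx : x ∈ T.K
  · rw [T.G_K hx]
  · obtain ⟨m, hm⟩ := T.exists_not_mem hx
    have hm' : x ∉ T.U (max m n) := fun h => hm (T.U_anti (le_max_left _ _) h)
    rw [T.G_eq hm']
    exact T.inv_le (le_max_right _ _) i x

theorem G_mem_U (n : ℕ) (x : X) : T.G x ∈ T.U n ↔ x ∈ T.U n := by
  constructor
  · intro h
    obtain ⟨i, hi⟩ := mem_iUnion.1 h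
    exact mem_iUnion.2 ⟨i, (T.G_mem_box n i x).1 hi⟩
  · intro h
    obtain ⟨i, hi⟩ := mem_iUnion.1 h
    exact mem_iUnion.2 ⟨i, (T.G_mem_box n i x).2 hi⟩

theorem G_mem_K (x : X) : T.G x ∈ T.K ↔ x ∈ T.K := by
  simp only [K, mem_iInter]
  exact forall_congr' fun n => T.G_mem_U n x

theorem G_eventuallyEq {x : X} {n : ℕ} (hx : x ∉ T.U n) : T.G =ᶠ[𝓝 x] T.F n := by
  have h : (T.U n)ᶜ ∈ 𝓝 x := (T.closedU n).isOpen_compl.mem_nhds hx
  filter_upwards [h] with z hz
  exact T.G_eq hz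

/-- small neighbourhoods of points of `K`. -/
theorem exists_small_box {x : X} (hx : x ∈ T.K) {V : Set X} (hV : V ∈ 𝓝 x) :
    ∃ n i, T.Q n i ∈ 𝓝 x ∧ T.Q n i ⊆ V := by
  obtain ⟨ε, hε, hball⟩ := Metric.mem_nhds_iff.1 hV
  obtain ⟨n, hn⟩ := T.small (ε / 2) (by positivity)
  obtain ⟨j, hj⟩ := T.U_succ_subset_interior n (mem_iInter.1 hx (n + 1))
  refine ⟨n, j, mem_interior_iff_mem_nhds.1 hj, fun y hy => hball ?_⟩
  have := hn j y hy x (interior_subset hj)
  rw [Metric.mem_ball]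
  linarith

theorem G_continuous : Continuous T.G := by
  rw [continuous_iff_continuousAt]
  intro x
  by_cases hx : x ∈ T.K
  · intro V hV
    rw [T.G_K hx] at hV
    obtain ⟨n, i, h1, h2⟩ := T.exists_small_box hx hV
    rw [mem_map]
    exact mem_of_superset h1 fun y hy => h2 ((T.G_mem_box n i y).2 hy)
  · obtain ⟨n, hn⟩ := T.exists_not_mem hx
    exact ((T.cont n).continuousAt).congr (T.G_eventuallyEq hn).symm

/-- every box is contained in its image under the limit map. -/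
theorem box_subset_image (n : ℕ) (i : T.ι n) : T.Q n i ⊆ T.G '' T.Q n i := by
  intro y hy
  by_cases hyK : y ∈ T.K
  · exact ⟨y, hy, T.G_K hyK⟩
  · -- take m large with y ∉ U m; surjectivity of `F m` on `Q n i`
    obtain ⟨m, hm⟩ := T.exists_not_mem hyK
    -- surjectivity of F k on Q n i for k > n
    have key : ∀ k, ∀ z ∈ T.Q n i, z ∈ T.F (n + 1 + k) '' T.Q n i := by
      intro k
      induction k with
      | zero => exact fun z hz => T.surj' n i hz
      | succ k ih =>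
        intro z hz
        by_cases hzU : z ∈ T.U (n + 1 + k)
        · obtain ⟨j, hj⟩ := mem_iUnion.1 hzU
          obtain ⟨w, hw, hwz⟩ := T.surj' (n + 1 + k) j hj
          obtain ⟨l, hl⟩ := T.box_subset (show n ≤ n + 1 + k by omega) j
          refine ⟨w, ?_, hwz⟩
          rw [T.mem_unique hz (hl hj)]
          exact hl hw
        · obtain ⟨w, hw, hwz⟩ := ih z hz
          refine ⟨w, hw, ?_⟩
          have hwU : w ∉ T.U (n + 1 + k) := by
            intro h
            obtain ⟨j, hj⟩ := mem_iUnion.1 h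
            have := (T.inv (n + 1 + k) j w).2 hj
            rw [hwz] at this
            exact hzU (mem_iUnion.2 ⟨j, this⟩)
          rw [← hwz]
          exact T.agree (n + 1 + k) w hwU
    have hm' : y ∉ T.U (n + 1 + m) := fun h => hm (T.U_anti (by omega) h)
    obtain ⟨w, hw, hwy⟩ := key m y hy
    refine ⟨w, hw, ?_⟩
    have hwU : w ∉ T.U (n + 1 + m) := by
      intro h
      obtain ⟨j, hj⟩ := mem_iUnion.1 h
      have := (T.inv (n + 1 + m) j w).2 hj
      rw [hwy] at this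
      exact hm' (mem_iUnion.2 ⟨j, this⟩)
    rw [T.G_eq hwU, hwy]

theorem G_openAt (x : X) : 𝓝 (T.G x) ≤ map T.G (𝓝 x) := by
  by_cases hx : x ∈ T.K
  · refine nhds_le_map_of_invariant T.G x (T.G_K hx) fun V hV => ?_
    obtain ⟨n, i, h1, h2⟩ := T.exists_small_box hx hV
    exact ⟨_, h1, h2, T.box_subset_image n i⟩
  · obtain ⟨n, hn⟩ := T.exists_not_mem hx
    rw [T.G_eq hn, Filter.map_congr (T.G_eventuallyEq hn)]
    exact T.openAt n x

theorem G_discrete (x y : X) : ∀ᶠ z in 𝓝[≠] x, T.G z ≠ y := by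
  by_cases hx : x ∈ T.K
  · refine discrete_of_fixed T.G univ isOpen_univ x (mem_univ _)
      T.G_continuous.continuousAt (fun z _ hz => ?_) y
    rw [T.G_K hx] at hz
    have hzK : z ∈ T.K := (T.G_mem_K z).1 (hz ▸ hx)
    rw [← hz, T.G_K hzK]
  · obtain ⟨n, hn⟩ := T.exists_not_mem hx
    have h1 := nhdsWithin_le_nhds (T.G_eventuallyEq hn) (s := {x}ᶜ)
    filter_upwards [h1, T.disc n x y] with z hz hzy
    rw [hz]
    exact hzy

theorem G_isOpenMap : IsOpenMap T.G := by
  rw [isOpenMap_iff_nhds_le]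
  exact T.G_openAt

end Tower

end Pool.Agent.Helper15.Jac
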